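import Pool.Agent.P.MP_b67dab_lc.Basic
import Pool.Agent.P.MP_b67dab_lc.Defs

-- part Pool.Agent.P.MP_b67dab_lc.Core
section

namespace Pool.Agent.P.MP_b67dab_lc

open Set

/-- Agreement of two sequences below `n`. -/
def Ag {α : Type} (n : ℕ) (x y : ℕ → α) : Prop := ∀ i < n, x i = y i

theorem Ag.refl {α : Type} (n : ℕ) (x : ℕ → α) : Ag n x x := fun _ _ => rfl
theorem Ag.symm {α : Type} {n : ℕ} {x y : ℕ → α} (h : Ag n x y) : Ag n y x :=
  fun i hi => (h i hi).symm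
theorem Ag.trans {α : Type} {n : ℕ} {x y z : ℕ → α} (h : Ag n x y) (h' : Ag n y z) : Ag n x z :=
  fun i hi => (h i hi).trans (h' i hi)
theorem Ag.mono {α : Type} {m n : ℕ} {x y : ℕ → α} (h : Ag n x y) (hm : m ≤ n) : Ag m x y :=
  fun i hi => h i (lt_of_lt_of_le hi hm)

/-- The fan theorem (compactness of Cantor space). -/
theorem fan (Q : ℕ → (ℕ → Bool) → Prop) (mono : ∀ m m' x, m ≤ m' → Q m x → Q m' x)
    (h : ∀ x, ∃ m, ∀ x', Ag m x x' → Q m x') : ∃ m, ∀ x, Q m x := by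
  choose m hm using h
  have hopen : ∀ x : ℕ → Bool, {x' | Ag (m x) x x'} ∈ nhds x := by
    intro x
    have : {x' : ℕ → Bool | Ag (m x) x x'} = ⋂ i ∈ Finset.range (m x), {x' | x' i = x i} := by
      ext x'
      simp only [Ag, mem_ofPred_eq, Finset.mem_range, mem_iInter]
      exact ⟨fun h i hi => (h i hi).symm, fun h i hi => (h i hi).symm⟩
    rw [this]
    refine (Filter.biInter_finset_mem _).2 fun i _ => ?_
    exact (continuous_apply i).continuousAt.preimage_mem_nhds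
      (t := {x i}) ((isOpen_discrete _).mem_nhds rfl)
  obtain ⟨t, -, ht⟩ := isCompact_univ.elim_nhds_subcover (fun x => {x' | Ag (m x) x x'})
    (fun x _ => hopen x)
  refine ⟨t.sup m, fun x => ?_⟩
  obtain ⟨y, hy, hx⟩ := mem_iUnion₂.1 (ht (mem_univ x))
  exact mono _ _ _ (Finset.le_sup hy) (hm y x hx)

/-- A uniform modulus for finitely many requirements. -/
theorem exists_unif (Q : ℕ → ℕ → Prop) (mono : ∀ j m m', m ≤ m' → Q j m → Q j m') (N : ℕ)
    (h : ∀ j < N, ∃ m, Q j m) : ∃ m, ∀ j < N, Q j m := by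
  induction N with
  | zero => exact ⟨0, by simp⟩
  | succ N ih =>
    obtain ⟨m, hm⟩ := ih fun j hj => h j (by omega)
    obtain ⟨m', hm'⟩ := h N (by omega)
    refine ⟨max m m', fun j hj => ?_⟩
    rcases Nat.lt_succ_iff_lt_or_eq.1 hj with hj | rfl
    · exact mono _ _ _ (le_max_left _ _) (hm j hj)
    · exact mono _ _ _ (le_max_right _ _) hm'

/-- Open subsets of Baire space. -/
def IsOp (O : Set (ℕ → ℕ)) : Prop := ∀ p ∈ O, ∃ m, ∀ p', Ag m p p' → p' ∈ O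

/-- Projection along Cantor space of countably many conditions, open in the first and closed in
the second variable, is a countable intersection of open sets. -/
theorem proj_gdelta (U : ℕ → (ℕ → ℕ) → (ℕ → Bool) → Prop)
    (hop : ∀ j p L, U j p L → ∃ m, ∀ p', Ag m p p' → U j p' L)
    (hcl : ∀ j p L, ¬ U j p L → ∃ m, ∀ L', Ag m L L' → ¬ U j p L') :
    ∃ O : ℕ → Set (ℕ → ℕ), (∀ N, IsOp (O N)) ∧ ∀ p, (∃ L, ∀ j, U j p L) ↔ ∀ N, p ∈ O N := by
  refine ⟨fun N => {p | ∃ L, ∀ j < N, U j p L}, ?_, ?_⟩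
  · rintro N p ⟨L, hL⟩
    obtain ⟨m, hm⟩ := exists_unif (fun j m => ∀ p', Ag m p p' → U j p' L)
      (fun j m m' hm h p' hp => h p' (hp.mono hm)) N (fun j hj => hop j p L (hL j hj))
    exact ⟨m, fun p' hp => ⟨L, fun j hj => hm j hj p' hp⟩⟩
  · intro p
    refine ⟨fun ⟨L, hL⟩ N => ⟨L, fun j _ => hL j⟩, fun h => ?_⟩
    by_contra hne
    push Not at hne
    obtain ⟨m, hm⟩ := fan (fun m L => ∃ j < m, ¬ U j p L)
      (fun m m' x hm ⟨j, hj, h⟩ => ⟨j, by omega, h⟩) (fun L => by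
        obtain ⟨j, hj⟩ := hne L
        obtain ⟨m, hm⟩ := hcl j p L hj
        exact ⟨max m (j + 1), fun L' hL => ⟨j, by omega, hm L' (hL.mono (le_max_left _ _))⟩⟩)
    obtain ⟨L, hL⟩ := h m
    obtain ⟨j, hj, h'⟩ := hm L
    exact h' (hL j hj)

/-- Existence of generic sequences. -/
theorem generic {E : Type} (Z : Set E) (e : E) (he : e ∈ Z) (D : ℕ → (ℕ → E) → ℕ → Prop)
    (hinv : ∀ n L L' k, Ag k L L' → D n L k → D n L' k)
    (hD : ∀ n L k, (∀ i, L i ∈ Z) → ∃ L' k', k ≤ k' ∧ (∀ i, L' i ∈ Z) ∧ Ag k L L' ∧ D n L' k') :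
    ∃ L : ℕ → E, (∀ i, L i ∈ Z) ∧ ∀ n, ∃ k, D n L k := by
  choose! f g h1 h2 h3 h4 using hD
  let s : ℕ → (ℕ → E) × ℕ := fun n => Nat.rec (fun _ => e, 0)
    (fun n c => (f n c.1 (c.2 + 1), g n c.1 (c.2 + 1))) n
  have hs : ∀ n, s (n + 1) = (f n (s n).1 ((s n).2 + 1), g n (s n).1 ((s n).2 + 1)) :=
    fun n => rfl
  have hZ : ∀ n i, (s n).1 i ∈ Z := by
    intro n
    induction n with
    | zero => exact fun _ => he
    | succ n ih => rw [hs]; exact h2 _ _ _ ih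
  have hlt : ∀ n, (s n).2 + 1 ≤ (s (n + 1)).2 := fun n => by rw [hs]; exact h1 _ _ _ (hZ n)
  have hag : ∀ n, Ag ((s n).2 + 1) (s n).1 (s (n + 1)).1 := fun n => by
    rw [hs]; exact h3 _ _ _ (hZ n)
  have hle : ∀ n, n ≤ (s n).2 := by
    intro n
    induction n with
    | zero => exact Nat.zero_le _
    | succ n ih => have := hlt n; omega
  have hag2 : ∀ n d, (s n).2 ≤ (s (n + d)).2 ∧ Ag ((s n).2 + 1) (s n).1 (s (n + d)).1 := by
    intro n d
    induction d with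
    | zero => exact ⟨le_rfl, Ag.refl _ _⟩
    | succ d ih =>
      have := hlt (n + d)
      exact ⟨by rw [← add_assoc]; omega, ih.2.trans ((hag (n + d)).mono (by omega))⟩
  refine ⟨fun i => (s i).1 i, fun i => hZ i i, fun n => ⟨(s (n + 1)).2, ?_⟩⟩
  refine hinv n (s (n + 1)).1 _ _ (fun i hi => ?_) (by rw [hs]; exact h4 _ _ _ (hZ n))
  rcases le_total i (n + 1) with h | h
  · obtain ⟨d, hd⟩ := Nat.exists_eq_add_of_le h
    rw [hd]
    exact ((hag2 i d).2 i (by have := hle i; omega)).symm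
  · obtain ⟨d, hd⟩ := Nat.exists_eq_add_of_le h
    have := (hag2 (n + 1) d).2 i (by omega)
    rw [this, ← hd]

/-- The diagonal set. -/
def diag : Set (ℕ → ℕ) :=
  {p | ∀ i : ℕ, ∃ j : ℕ, ∀ k : ℕ, p (Encodable.encode (i, j, (List.range k).map p)) ≠ 0}

theorem diag_not_sigma3 (O : ℕ → ℕ → Set (ℕ → ℕ)) (hO : ∀ i j, IsOp (O i j))
    (h : ∀ p, p ∈ diag ↔ ∃ i, ∀ j, p ∈ O i j) : False := by
  classical
  let q : ℕ → ℕ := fun n => if ∃ (i j : ℕ) (σ : List ℕ), n = Encodable.encode (i, j, σ) ∧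
    ∀ p' : ℕ → ℕ, (List.range σ.length).map p' = σ → p' ∈ O i j then 0 else 1
  have key : ∀ i j, q ∈ O i j ↔ ∃ k : ℕ, q (Encodable.encode (i, j, (List.range k).map q)) = 0 := by
    intro i j
    constructor
    · intro hq
      obtain ⟨m, hm⟩ := hO i j q hq
      refine ⟨m, if_pos ⟨i, j, _, rfl, fun p' hp => hm p' ?_⟩⟩
      simp only [List.length_map, List.length_range] at hp
      exact fun i hi => ((range_map_eq_iff _ _ _).1 hp i hi).symm
    · rintro ⟨k, hk⟩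
      have : ∃ (i' j' : ℕ) (σ : List ℕ), Encodable.encode (i, j, (List.range k).map q) =
          Encodable.encode (i', j', σ) ∧
          ∀ p' : ℕ → ℕ, (List.range σ.length).map p' = σ → p' ∈ O i' j' := by
        by_contra hc
        rw [show q (Encodable.encode (i, j, (List.range k).map q)) = 1 from if_neg hc] at hk
        exact one_ne_zero hk
      obtain ⟨i', j', σ, h1, h2⟩ := this
      have h3 := Encodable.encode_injective h1
      simp only [Prod.mk.injEq] at h3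
      obtain ⟨rfl, rfl, rfl⟩ := h3
      exact h2 q (by simp)
  have h1 := h q
  simp only [key, diag, mem_ofPred_eq] at h1
  by_cases hq : ∃ i : ℕ, ∀ j : ℕ, ∃ k : ℕ, q (Encodable.encode (i, j, (List.range k).map q)) = 0
  · obtain ⟨i, hi⟩ := hq
    obtain ⟨j, hj⟩ := h1.2 ⟨i, hi⟩ i
    obtain ⟨k, hk⟩ := hi j
    exact hj k hk
  · apply hq
    apply h1.1
    push Not at hq
    exact hq

end Pool.Agent.P.MP_b67dab_lc
end

-- part Pool.Agent.P.MP_b67dab_lc.Forcing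
section

namespace Pool.Agent.P.MP_b67dab_lc

open Set

/-- The `i`-th point coded in `s`. -/
def ent (s : ℕ → Bool) (i : ℕ) : ℕ → Bool := fun j => s (Nat.pair i (j + 1))

/-- Every flagged point of `s` lies in `S`. -/
def PL (S : Set (ℕ → Bool)) (s : ℕ → Bool) : Prop := ∀ i, s (Nat.pair i 0) = true → ent s i ∈ S

/-- The flagged points of `s` are exactly the elements of `S`. -/
def Lists (S : Set (ℕ → Bool)) (s : ℕ → Bool) : Prop :=
  PL S s ∧ ∀ x ∈ S, ∃ i, s (Nat.pair i 0) = true ∧ ent s i = x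

/-- The first `k` rows agree. -/
def EqUp (k : ℕ) (s t : ℕ → Bool) : Prop := ∀ i < k, ∀ j, s (Nat.pair i j) = t (Nat.pair i j)

theorem EqUp.ag {k : ℕ} {s t : ℕ → Bool} (h : EqUp k s t) : Ag k s t := by
  intro n hn
  have := h n.unpair.1 (lt_of_le_of_lt (Nat.unpair_left_le n) hn) n.unpair.2
  rwa [Nat.pair_unpair] at this

theorem EqUp.mono {k m : ℕ} {s t : ℕ → Bool} (h : EqUp k s t) (hm : m ≤ k) : EqUp m s t :=
  fun i hi => h i (lt_of_lt_of_le hi hm)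

/-- Flattening of rows. -/
def flat (R : ℕ → ℕ → Bool) : ℕ → Bool := fun n => R n.unpair.1 n.unpair.2

@[simp] theorem flat_pair (R : ℕ → ℕ → Bool) (i j : ℕ) : flat R (Nat.pair i j) = R i j := by
  simp [flat]

theorem ext_list {S : Set (ℕ → Bool)} (hS : S.Countable) {z : ℕ → Bool} (hz : PL S z) (k : ℕ) :
    ∃ s, Lists S s ∧ EqUp k z s := by
  rcases S.eq_empty_or_nonempty with rfl | hne
  · exact ⟨z, ⟨hz, by simp⟩, fun _ _ _ => rfl⟩
  obtain ⟨e, he⟩ := hS.exists_eq_range hne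
  refine ⟨flat fun i j => if i < k then z (Nat.pair i j) else
    (if j = 0 then true else e (i - k) (j - 1)), ⟨fun i hi => ?_, fun x hx => ?_⟩,
    fun i hi j => by simp [hi]⟩
  · by_cases h : i < k
    · have := hz i (by simpa [h] using hi)
      convert this using 1
      funext j
      simp [ent, h]
    · rw [he]
      exact ⟨i - k, funext fun j => by simp [ent, h]⟩
  · rw [he] at hx
    obtain ⟨i, rfl⟩ := hx
    exact ⟨i + k, by simp, funext fun j => by simp [ent]⟩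

theorem ent_ag {i m : ℕ} {z z' : ℕ → Bool} (h : Ag (Nat.pair i (m + 1)) z z') :
    z (Nat.pair i 0) = z' (Nat.pair i 0) ∧ Ag m (ent z i) (ent z' i) :=
  ⟨h _ (Nat.pair_lt_pair_right _ (by omega)),
    fun j hj => h _ (Nat.pair_lt_pair_right _ (by omega))⟩

theorem notPL_stable (T : ℕ → Set (ℕ → Bool) → Prop) (mono : ∀ m m' S', m ≤ m' → T m' S' → T m S')
    (S : Set (ℕ → Bool)) (hS : ∀ x ∉ S, ∃ m, ∀ S', T m S' → ∀ x', Ag m x x' → x' ∉ S')
    (C : (ℕ → Bool) → Prop) (hC : ∀ z, ¬ C z → ∃ m, ∀ z', Ag m z z' → ¬ C z')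
    (h : ¬ ∃ z, C z ∧ PL S z) : ∃ m, ∀ S', T m S' → ¬ ∃ z, C z ∧ PL S' z := by
  obtain ⟨m, hm⟩ := fan (fun m z => ∀ S', T m S' → ¬ (C z ∧ PL S' z))
    (fun m m' z hm h S' hT => h S' (mono _ _ _ hm hT)) (fun z => by
      by_cases hz : C z
      · have : ¬ PL S z := fun h' => h ⟨z, hz, h'⟩
        simp only [PL, not_forall] at this
        obtain ⟨i, hi, hx⟩ := this
        obtain ⟨m, hm⟩ := hS _ hx
        refine ⟨max m (Nat.pair i (m + 1)), fun z' hz' S' hT h' => ?_⟩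
        obtain ⟨h1, h2⟩ := ent_ag (hz'.mono (le_max_right _ _))
        exact hm S' (mono _ _ _ (le_max_left _ _) hT) _ h2 (h'.2 i (h1 ▸ hi))
      · obtain ⟨m, hm⟩ := hC z hz
        exact ⟨m, fun z' hz' S' _ h' => hm z' hz' h'.1⟩)
  exact ⟨m, fun S' hT ⟨z, hz⟩ => hm z S' hT hz⟩

theorem exists_code (n : ℕ) (t : ℕ → Bool) : ∃ c : ℕ, Ag n c.testBit t :=
  ⟨Nat.ofBits fun i : Fin n => t i, fun i hi => by rw [Nat.testBit_ofBits_lt _ _ hi]⟩

theorem not_ag_stable {n : ℕ} {τ z : ℕ → Bool} (h : ¬ Ag n τ z) :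
    ∃ m, ∀ z', Ag m z z' → ¬ Ag n τ z' :=
  ⟨n, fun _ hz h' => h (h'.trans hz.symm)⟩

section main

variable (A : (ℕ → ℕ) → Set (ℕ → Bool)) (B : (ℕ → ℕ) → (ℕ → Bool) → Set (ℕ → Bool))
  (D : Set (ℕ → ℕ))

/-- The pattern `c` of length `n` is consistent with `B p s`. -/
def Valid (p : ℕ → ℕ) (s : ℕ → Bool) (n c : ℕ) : Prop := ∃ z, Ag n c.testBit z ∧ PL (B p s) z

/-- The first `k` rows of `L` force validity. -/
def Force (p : ℕ → ℕ) (L : ℕ → Bool) (k n c : ℕ) : Prop :=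
  ∀ s, Lists (A p) s → EqUp k L s → Valid B p s n c

/-- The finite data of length `n` decide membership in `D`. -/
def Dec (p : ℕ → ℕ) (L : ℕ → Bool) (n c : ℕ) : Prop :=
  ∀ p' s' t', Lists (A p') s' → Lists (B p' s') t' → Ag n p p' → Ag n L s' → Ag n c.testBit t' →
    p' ∈ D

variable {A B D}

theorem invalid_open
    (hB : ∀ p s, Lists (A p) s → ∀ x ∉ B p s, ∃ m, ∀ p' s' x', Lists (A p') s' → Ag m p p' →
      Ag m s s' → Ag m x x' → x' ∉ B p' s')
    {p : ℕ → ℕ} {s : ℕ → Bool} (hs : Lists (A p) s) {n c : ℕ} (h : ¬ Valid B p s n c) :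
    ∃ m, ∀ p' s', Lists (A p') s' → Ag m p p' → Ag m s s' → ¬ Valid B p' s' n c := by
  obtain ⟨m, hm⟩ := notPL_stable
    (fun m S' => ∃ p' s', Lists (A p') s' ∧ Ag m p p' ∧ Ag m s s' ∧ S' = B p' s')
    (fun m m' S' hm ⟨p', s', h1, h2, h3, h4⟩ => ⟨p', s', h1, h2.mono hm, h3.mono hm, h4⟩)
    (B p s) (fun x hx => by
      obtain ⟨m, hm⟩ := hB p s hs x hx
      refine ⟨m, ?_⟩
      rintro S' ⟨p', s', h1, h2, h3, rfl⟩ x' hx'
      exact hm p' s' x' h1 h2 h3 hx')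
    (fun z => Ag n c.testBit z) (fun z hz => not_ag_stable hz) h
  exact ⟨m, fun p' s' h1 h2 h3 => hm _ ⟨p', s', h1, h2, h3, rfl⟩⟩

theorem sound (hAc : ∀ p, (A p).Countable) (hBc : ∀ p s, Lists (A p) s → (B p s).Countable)
    {p : ℕ → ℕ} {L : ℕ → Bool} {k n c : ℕ} (h1 : PL (A p) L) (h2 : Force A B p L k n c)
    (h3 : Dec A B D p L n c) : p ∈ D := by
  obtain ⟨s, hs, hs'⟩ := ext_list (hAc p) h1 (max k n)
  obtain ⟨z, hz, hz'⟩ := h2 s hs (hs'.mono (le_max_left _ _))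
  obtain ⟨t, ht, ht'⟩ := ext_list (hBc p s hs) hz' n
  exact h3 p s t hs ht (Ag.refl _ _) (hs'.mono (le_max_right _ _)).ag (hz.trans ht'.ag)

theorem complete (hAc : ∀ p, (A p).Countable) (hBc : ∀ p s, Lists (A p) s → (B p s).Countable)
    (hB : ∀ p s, Lists (A p) s → ∀ x ∉ B p s, ∃ m, ∀ p' s' x', Lists (A p') s' → Ag m p p' →
      Ag m s s' → Ag m x x' → x' ∉ B p' s')
    (hD : ∀ p s t, Lists (A p) s → Lists (B p s) t → p ∈ D → ∃ m, ∀ p' s' t', Lists (A p') s' →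
      Lists (B p' s') t' → Ag m p p' → Ag m s s' → Ag m t t' → p' ∈ D)
    {p : ℕ → ℕ} (hp : p ∈ D) :
    ∃ k n c L, PL (A p) L ∧ Force A B p L k n c ∧ Dec A B D p L n c := by
  -- an enumeration of a countable superset of `A p`
  obtain ⟨e, he⟩ : ∃ e : ℕ → ℕ → Bool, A p ⊆ range e := by
    obtain ⟨e, he⟩ := ((hAc p).insert (fun _ => false)).exists_eq_range (insert_nonempty _ _)
    exact ⟨e, he ▸ subset_insert _ _⟩
  let Z : Set (ℕ → Bool) := {r | r 0 = true → (fun j => r (j + 1)) ∈ A p}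
  have hZ : ∀ R : ℕ → ℕ → Bool, (∀ i, R i ∈ Z) ↔ PL (A p) (flat R) := by
    intro R
    refine forall_congr' fun i => ?_
    have : ent (flat R) i = fun j => R i (j + 1) := funext fun j => by simp [ent]
    simp [Z, this]
  have hEq : ∀ k (R R' : ℕ → ℕ → Bool), Ag k R R' ↔ EqUp k (flat R) (flat R') := by
    intro k R R'
    refine forall_congr' fun i => forall_congr' fun _ => ?_
    simp [funext_iff]
  have hflat : ∀ s : ℕ → Bool, flat (fun i j => s (Nat.pair i j)) = s :=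
    fun s => funext fun n => by simp [flat]
  obtain ⟨R, hR, hgen⟩ := generic Z (fun _ => false) (by simp [Z])
    (fun N R k => (e N ∈ A p → ∃ i < k, R i 0 = true ∧ (fun j => R i (j + 1)) = e N) ∧
      (Force A B p (flat R) k N.unpair.1 N.unpair.2 ∨
        ∀ s, Lists (A p) s → EqUp k (flat R) s → ¬ Valid B p s N.unpair.1 N.unpair.2))
    (by
      rintro N R R' k hag ⟨h1, h2⟩
      have hE := (hEq k R R').1 hag
      refine ⟨fun h => ?_, ?_⟩
      · obtain ⟨i, hi, h3⟩ := h1 h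
        exact ⟨i, hi, hag i hi ▸ h3⟩
      · rcases h2 with h2 | h2
        · exact Or.inl fun s hs hs' => h2 s hs fun i hi j => (hE i hi j).trans (hs' i hi j)
        · exact Or.inr fun s hs hs' => h2 s hs fun i hi j => (hE i hi j).trans (hs' i hi j))
    (by
      intro N R k hR
      obtain ⟨s, hs, hs'⟩ := ext_list (hAc p) ((hZ R).1 hR) k
      obtain ⟨k1, hk1, hk1'⟩ : ∃ k1, k ≤ k1 ∧ (e N ∈ A p →
          ∃ i < k1, s (Nat.pair i 0) = true ∧ ent s i = e N) := by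
        by_cases h : e N ∈ A p
        · obtain ⟨i, hi⟩ := hs.2 _ h
          exact ⟨max k (i + 1), le_max_left _ _, fun _ => ⟨i, by omega, hi⟩⟩
        · exact ⟨k, le_rfl, fun h' => absurd h' h⟩
      by_cases hF : Force A B p s k1 N.unpair.1 N.unpair.2
      · refine ⟨fun i j => s (Nat.pair i j), k1, hk1, (hZ _).2 (by rw [hflat]; exact hs.1),
          (hEq _ _ _).2 (by rw [hflat]; exact hs'), hk1', Or.inl (by rw [hflat]; exact hF)⟩
      · simp only [Force, not_forall] at hF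
        obtain ⟨s1, h1, h2, h3⟩ := hF
        obtain ⟨m, hm⟩ := invalid_open hB h1 h3
        refine ⟨fun i j => s1 (Nat.pair i j), max k1 m, by omega,
          (hZ _).2 (by rw [hflat]; exact h1.1), (hEq _ _ _).2 ?_, fun h => ?_, Or.inr ?_⟩
        · rw [hflat]
          exact fun i hi j => (hs' i hi j).trans (h2 i (by omega) j)
        · obtain ⟨i, hi, h4, h5⟩ := hk1' h
          refine ⟨i, by omega, (h2 i hi 0).symm.trans h4, ?_⟩
          rw [← h5]
          exact funext fun j => (h2 i hi (j + 1)).symm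
        · rw [hflat]
          exact fun s2 h4 h5 => hm p s2 h4 (Ag.refl _ _) (h5.mono (le_max_right _ _)).ag)
  have hs : Lists (A p) (flat R) := by
    refine ⟨(hZ R).1 hR, fun x hx => ?_⟩
    obtain ⟨N, rfl⟩ := he hx
    obtain ⟨k, hk, -⟩ := hgen N
    obtain ⟨i, -, h1, h2⟩ := hk hx
    exact ⟨i, by simpa using h1, h2 ▸ funext fun j => by simp [ent]⟩
  obtain ⟨t, ht, -⟩ := ext_list (hBc p _ hs) (z := fun _ => false) (by simp [PL]) 0
  obtain ⟨m, hm⟩ := hD p _ t hs ht hp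
  obtain ⟨c, hc⟩ := exists_code m t
  obtain ⟨k, -, hk⟩ := hgen (Nat.pair m c)
  simp only [Nat.unpair_pair] at hk
  refine ⟨k, m, c, flat R, hs.1, hk.resolve_right fun h => ?_, ?_⟩
  · exact h _ hs (fun _ _ _ => rfl) ⟨t, hc, ht.1⟩
  · exact fun p' s' t' h1 h2 h3 h4 h5 => hm p' s' t' h1 h2 h3 h4 (hc.symm.trans h5)

/-- The countably many conditions describing a forcing condition. -/
def Cond (A : (ℕ → ℕ) → Set (ℕ → Bool)) (B : (ℕ → ℕ) → (ℕ → Bool) → Set (ℕ → Bool))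
    (D : Set (ℕ → ℕ)) (k n c a b : ℕ) (p : ℕ → ℕ) (L : ℕ → Bool) : Prop :=
  (¬ (L (Nat.pair a 0) = true ∧ ∀ p' x', Ag b p p' → Ag b (ent L a) x' → x' ∉ A p')) ∧
  (¬ ((∀ i < k, ∀ j, Nat.pair i j < a → b.testBit (Nat.pair i j) = L (Nat.pair i j)) ∧
    (∃ z, (∀ i, k ≤ i → ∀ j, Nat.pair i j < a → b.testBit (Nat.pair i j) = z (Nat.pair i j)) ∧
      PL (A p) z) ∧
    ∀ p' s', Lists (A p') s' → Ag a p p' → Ag a b.testBit s' → ¬ Valid B p' s' n c)) ∧
  Dec A B D p L n c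

theorem cond_iff (hAc : ∀ p, (A p).Countable)
    (hA : ∀ p, ∀ x ∉ A p, ∃ m, ∀ p' x', Ag m p p' → Ag m x x' → x' ∉ A p')
    (hB : ∀ p s, Lists (A p) s → ∀ x ∉ B p s, ∃ m, ∀ p' s' x', Lists (A p') s' → Ag m p p' →
      Ag m s s' → Ag m x x' → x' ∉ B p' s')
    (k n c : ℕ) (p : ℕ → ℕ) (L : ℕ → Bool) :
    (PL (A p) L ∧ Force A B p L k n c ∧ Dec A B D p L n c) ↔ ∀ a b, Cond A B D k n c a b p L := by
  constructor
  · rintro ⟨h1, h2, h3⟩ a b
    refine ⟨fun h => h.2 p _ (Ag.refl _ _) (Ag.refl _ _) (h1 a h.1), ?_, h3⟩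
    rintro ⟨h4, ⟨z, h5, h6⟩, h7⟩
    have hw : PL (A p) (flat fun i j => if i < k then L (Nat.pair i j) else z (Nat.pair i j)) := by
      intro i hi
      by_cases h : i < k
      · have := h1 i (by simpa [h] using hi)
        convert this using 1
        funext j
        simp [ent, h]
      · have := h6 i (by simpa [h] using hi)
        convert this using 1
        funext j
        simp [ent, h]
    obtain ⟨s, hs, hs'⟩ := ext_list (hAc p) hw (max k a)
    refine h7 p s hs (Ag.refl _ _) (Ag.trans ?_ (hs'.mono (le_max_right _ _)).ag)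
      (h2 s hs fun i hi j => ?_)
    · intro N hN
      rw [← Nat.pair_unpair N] at hN ⊢
      by_cases h : N.unpair.1 < k
      · rw [flat_pair, if_pos h]
        exact h4 _ h _ hN
      · rw [flat_pair, if_neg h]
        exact h5 _ (by omega) _ hN
    · rw [← hs' i (by omega) j, flat_pair, if_pos hi]
  · intro h
    have h1 : PL (A p) L := by
      intro i hi
      by_contra hx
      obtain ⟨m, hm⟩ := hA p _ hx
      exact (h i m).1 ⟨hi, hm⟩
    refine ⟨h1, fun s hs hs' => ?_, (h 0 0).2.2⟩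
    by_contra hv
    obtain ⟨m, hm⟩ := invalid_open hB hs hv
    obtain ⟨d, hd⟩ := exists_code m s
    exact (h m d).2.1 ⟨fun i hi j hj => (hd _ hj).trans (hs' i hi j).symm,
      ⟨s, fun i _ j hj => hd _ hj, hs.1⟩,
      fun p' s' h1 h2 h3 => hm p' s' h1 h2 (hd.symm.trans h3)⟩

theorem cond_open
    (hA : ∀ p, ∀ x ∉ A p, ∃ m, ∀ p' x', Ag m p p' → Ag m x x' → x' ∉ A p')
    (k n c a b : ℕ) (p : ℕ → ℕ) (L : ℕ → Bool) (h : Cond A B D k n c a b p L) :
    ∃ m, ∀ p', Ag m p p' → Cond A B D k n c a b p' L := by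
  obtain ⟨h1, h2, h3⟩ := h
  have h2' : ∃ m, ∀ p1, Ag m p p1 → ¬ ((∀ i < k, ∀ j, Nat.pair i j < a →
      b.testBit (Nat.pair i j) = L (Nat.pair i j)) ∧
      (∃ z, (∀ i, k ≤ i → ∀ j, Nat.pair i j < a → b.testBit (Nat.pair i j) = z (Nat.pair i j)) ∧
        PL (A p1) z) ∧
      ∀ p' s', Lists (A p') s' → Ag a p1 p' → Ag a b.testBit s' → ¬ Valid B p' s' n c) := by
    by_cases hz : ∃ z, (∀ i, k ≤ i → ∀ j, Nat.pair i j < a →
        b.testBit (Nat.pair i j) = z (Nat.pair i j)) ∧ PL (A p) z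
    · exact ⟨a, fun p1 hp h => h2 ⟨h.1, hz, fun p' s' h4 h5 => h.2.2 p' s' h4 (hp.symm.trans h5)⟩⟩
    · obtain ⟨m, hm⟩ := notPL_stable (fun m S' => ∃ p', Ag m p p' ∧ S' = A p')
        (fun m m' S' hm ⟨p', h1, h2⟩ => ⟨p', h1.mono hm, h2⟩) (A p) (fun x hx => by
          obtain ⟨m, hm⟩ := hA p x hx
          refine ⟨m, ?_⟩
          rintro S' ⟨p', h1, rfl⟩ x' hx'
          exact hm p' x' h1 hx') _
        (fun z hz => ⟨a, fun z' hz' h => hz fun i hi j hj => (h i hi j hj).trans (hz' _ hj).symm⟩)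
        hz
      exact ⟨m, fun p1 hp h => hm _ ⟨p1, hp, rfl⟩ h.2.1⟩
  obtain ⟨m, hm⟩ := h2'
  refine ⟨max m (max b n), fun p1 hp => ⟨fun h => h1 ⟨h.1, fun p' x' h4 h5 => h.2 p' x' ?_ h5⟩,
    hm p1 (hp.mono (le_max_left _ _)), fun p' s' t' h4 h5 h6 => h3 p' s' t' h4 h5 ?_⟩⟩
  · exact (hp.mono (by omega)).symm.trans h4
  · exact (hp.mono (by omega)).trans h6

theorem cond_closed (k n c a b : ℕ) (p : ℕ → ℕ) (L : ℕ → Bool) (h : ¬ Cond A B D k n c a b p L) :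
    ∃ m, ∀ L', Ag m L L' → ¬ Cond A B D k n c a b p L' := by
  refine ⟨max (Nat.pair a (b + 1)) (max a n), fun L' hL h' => h ?_⟩
  obtain ⟨h1, h2, h3⟩ := h'
  obtain ⟨h4, h5⟩ := ent_ag (hL.mono (le_max_left _ _))
  refine ⟨fun h => h1 ⟨h4 ▸ h.1, fun p' x' h6 h7 => h.2 p' x' h6 (h5.trans h7)⟩,
    fun h => h2 ⟨fun i hi j hj => (h.1 i hi j hj).trans (hL _ (by omega)), h.2⟩,
    fun p' s' t' h6 h7 h8 h9 => h3 p' s' t' h6 h7 h8 ((hL.mono (by omega)).symm.trans h9)⟩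

/-- A set that is recognised continuously after two successive listings is a countable union of
countable intersections of open sets. -/
theorem sigma3 (hAc : ∀ p, (A p).Countable) (hBc : ∀ p s, Lists (A p) s → (B p s).Countable)
    (hA : ∀ p, ∀ x ∉ A p, ∃ m, ∀ p' x', Ag m p p' → Ag m x x' → x' ∉ A p')
    (hB : ∀ p s, Lists (A p) s → ∀ x ∉ B p s, ∃ m, ∀ p' s' x', Lists (A p') s' → Ag m p p' →
      Ag m s s' → Ag m x x' → x' ∉ B p' s')
    (hD : ∀ p s t, Lists (A p) s → Lists (B p s) t → p ∈ D → ∃ m, ∀ p' s' t', Lists (A p') s' →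
      Lists (B p' s') t' → Ag m p p' → Ag m s s' → Ag m t t' → p' ∈ D) :
    ∃ O : ℕ → ℕ → Set (ℕ → ℕ), (∀ i j, IsOp (O i j)) ∧ ∀ p, p ∈ D ↔ ∃ i, ∀ j, p ∈ O i j := by
  have key : ∀ i : ℕ, ∃ O : ℕ → Set (ℕ → ℕ), (∀ N, IsOp (O N)) ∧ ∀ p, (∃ L, ∀ j : ℕ,
      Cond A B D i.unpair.1 i.unpair.2.unpair.1 i.unpair.2.unpair.2 j.unpair.1 j.unpair.2 p L) ↔
      ∀ N, p ∈ O N := fun i =>
    proj_gdelta _ (fun j p L => cond_open hA _ _ _ _ _ p L) (fun j p L => cond_closed _ _ _ _ _ p L)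
  choose O hO hO' using key
  refine ⟨O, hO, fun p => ⟨fun hp => ?_, fun ⟨i, hi⟩ => ?_⟩⟩
  · obtain ⟨k, n, c, L, h⟩ := complete hAc hBc hB hD hp
    refine ⟨Nat.pair k (Nat.pair n c), (hO' _ p).1 ⟨L, fun j => ?_⟩⟩
    simp only [Nat.unpair_pair]
    exact (cond_iff hAc hA hB k n c p L).1 h _ _
  · obtain ⟨L, hL⟩ := (hO' i p).2 hi
    obtain ⟨h1, h2, h3⟩ := (cond_iff (D := D) hAc hA hB _ _ _ p L).2 fun a b => by
      simpa only [Nat.unpair_pair] using hL (Nat.pair a b)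
    exact sound hAc hBc h1 h2 h3

end main

end Pool.Agent.P.MP_b67dab_lc
end

-- part Pool.Agent.P.MP_b67dab_lc.Main
section

namespace Pool.Agent.P.MP_b67dab_lc

open Set

/-- The name-level version of a problem. -/
def nm {X Y : Rep} (f : Problem X Y) (p : ℕ → ℕ) : Set (ℕ → ℕ) :=
  {q | ∃ x, X.names p x ∧ ∃ y ∈ f x, Y.names q y}

/-- Pointwise continuous reduction between name-level problems. -/
def PW (f g : (ℕ → ℕ) → Set (ℕ → ℕ)) : Prop :=
  ∃ (K : (ℕ → ℕ) → ℕ → ℕ) (H : (ℕ → ℕ) → (ℕ → ℕ) → ℕ → ℕ),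
    (∀ p, (f p).Nonempty → (g (K p)).Nonempty ∧ ∀ s ∈ g (K p), H p s ∈ f p) ∧
    (∀ p, (f p).Nonempty → ∀ n, ∃ m, ∀ p', (f p').Nonempty → Ag m p p' → Ag n (K p) (K p')) ∧
    (∀ p, (f p).Nonempty → ∀ s ∈ g (K p), ∀ n, ∃ m, ∀ p', (f p').Nonempty → ∀ s' ∈ g (K p'),
      Ag m p p' → Ag m s s' → Ag n (H p s) (H p' s'))

theorem PW.trans {f g h : (ℕ → ℕ) → Set (ℕ → ℕ)} (h1 : PW f g) (h2 : PW g h) : PW f h := by
  obtain ⟨K, H, a1, a2, a3⟩ := h1
  obtain ⟨K', H', b1, b2, b3⟩ := h2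
  refine ⟨fun p => K' (K p), fun p s => H p (H' (K p) s), fun p hp => ⟨(b1 _ (a1 p hp).1).1,
    fun s hs => (a1 p hp).2 _ ((b1 _ (a1 p hp).1).2 s hs)⟩, fun p hp n => ?_,
    fun p hp s hs n => ?_⟩
  · obtain ⟨m, hm⟩ := b2 _ (a1 p hp).1 n
    obtain ⟨m', hm'⟩ := a2 p hp m
    exact ⟨m', fun p' hp' h => hm _ (a1 p' hp').1 (hm' p' hp' h)⟩
  · obtain ⟨m1, hm1⟩ := a3 p hp _ ((b1 _ (a1 p hp).1).2 s hs) n
    obtain ⟨m2, hm2⟩ := b3 _ (a1 p hp).1 s hs m1
    obtain ⟨m3, hm3⟩ := a2 p hp m2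
    refine ⟨max m1 (max m2 m3), fun p' hp' s' hs' h h' => ?_⟩
    exact hm1 p' hp' _ ((b1 _ (a1 p' hp').1).2 s' hs') (h.mono (by omega))
      (hm2 _ (a1 p' hp').1 s' hs' (hm3 p' hp' (h.mono (by omega))) (h'.mono (by omega)))

theorem ComputableMap.cont {F : (ℕ → ℕ) →. (ℕ → ℕ)} (hF : ComputableMap F) (p q : ℕ → ℕ)
    (hq : q ∈ F p) (n : ℕ) : ∃ m, ∀ p', ∀ q' ∈ F p', Ag m p p' → Ag n q q' := by
  obtain ⟨h, -, -, hh⟩ := hF
  obtain ⟨m, hm⟩ := (hh p q hq).2 n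
  refine ⟨m, fun p' q' hq' hp => ?_⟩
  obtain ⟨k, hk⟩ := (hh p q hq).1 m
  obtain ⟨k', hk'⟩ := (hh p' q' hq').1 m
  have h1 : (List.range m).map p = (List.range m).map p' := (range_map_eq_iff _ _ _).2 hp
  rw [← h1, hk] at hk'
  have h2 : k = k' := by simpa using congrArg List.length hk'
  subst h2
  have h3 : n ≤ k := by simpa [hk] using hm
  exact Ag.mono ((range_map_eq_iff _ _ _).1 hk') h3

theorem pair_ag {m : ℕ} {p p' s s' : ℕ → ℕ} (h : Ag m p p') (h' : Ag m s s') :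
    Ag m (interleave p s) (interleave p' s') := by
  intro i hi
  simp only [interleave]
  rw [h _ (by omega), h' _ (by omega)]

theorem nm_nonempty {X Y : Rep} {f : Problem X Y} {p : ℕ → ℕ} :
    (nm f p).Nonempty ↔ ∃ x, X.names p x ∧ (f x).Nonempty := by
  constructor
  · rintro ⟨q, x, hx, y, hy, -⟩
    exact ⟨x, hx, y, hy⟩
  · rintro ⟨x, hx, y, hy⟩
    obtain ⟨q, hq⟩ := Y.surj y
    exact ⟨q, x, hx, y, hy, hq⟩

theorem realizes_iff {X Y : Rep} {f : Problem X Y} {F : (ℕ → ℕ) →. (ℕ → ℕ)} :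
    Realizes f F ↔ ∀ p, (nm f p).Nonempty → ∃ q ∈ F p, q ∈ nm f p := by
  constructor
  · intro h p hp
    obtain ⟨x, hx, hx'⟩ := nm_nonempty.1 hp
    obtain ⟨q, hq, y, hy, hy'⟩ := h p x hx hx'
    exact ⟨q, hq, x, hx, y, hy, hy'⟩
  · intro h p x hx hx'
    obtain ⟨q, hq, x', h1, y, hy, hy'⟩ := h p (nm_nonempty.2 ⟨x, hx, hx'⟩)
    obtain rfl := X.unique p x x' hx h1
    exact ⟨q, hq, y, hy, hy'⟩

theorem WLe.pw {X Y U V : Rep} {f : Problem X Y} {g : Problem U V} (h : WLe f g) :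
    PW (nm f) (nm g) := by
  classical
  obtain ⟨H, K, hH, hK, h⟩ := h
  have key : ∀ p, (nm f p).Nonempty → ∃ r ∈ K p, (nm g r).Nonempty ∧
      ∀ s ∈ nm g r, ∃ t ∈ H (interleave p s), t ∈ nm f p := by
    intro p hp
    let G : (ℕ → ℕ) →. (ℕ → ℕ) := fun r => ⟨(nm g r).Nonempty, fun h => h.some⟩
    have hG : Realizes g G := realizes_iff.2 fun r hr => ⟨hr.some, ⟨hr, rfl⟩, hr.some_mem⟩
    obtain ⟨q, hq, -⟩ := realizes_iff.1 (h G hG) p hp
    simp only [Part.mem_bind_iff] at hq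
    obtain ⟨r, hr, s0, hs0, -⟩ := hq
    refine ⟨r, hr, hs0.1, fun s hs => ?_⟩
    have hG' : Realizes g (Function.update G r (Part.some s)) := realizes_iff.2 fun r' hr' => by
      by_cases h : r' = r
      · subst h
        exact ⟨s, by simp, hs⟩
      · rw [Function.update_of_ne h]
        exact realizes_iff.1 hG r' hr'
    obtain ⟨t, ht, ht'⟩ := realizes_iff.1 (h _ hG') p hp
    simp only [Part.mem_bind_iff] at ht
    obtain ⟨r', hr', s', hs', ht⟩ := ht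
    obtain rfl := Part.mem_unique hr hr'
    rw [Function.update_self, Part.mem_some_iff] at hs'
    subst hs'
    exact ⟨t, ht, ht'⟩
  choose! K' k1 k2 H' h1 h2 using key
  refine ⟨K', H', fun p hp => ⟨k2 p hp, h2 p hp⟩, fun p hp n => ?_, fun p hp s hs n => ?_⟩
  · obtain ⟨m, hm⟩ := hK.cont p _ (k1 p hp) n
    exact ⟨m, fun p' hp' h => hm p' _ (k1 p' hp') h⟩
  · obtain ⟨m, hm⟩ := hH.cont _ _ (h1 p hp s hs) n
    exact ⟨m, fun p' hp' s' hs' h h' => hm _ _ (h1 p' hp' s' hs') (pair_ag h h')⟩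

/-- The closed set named by `r`. -/
def cl {α : Type} [Encodable α] (r : ℕ → ℕ) : Set (ℕ → α) :=
  {x | ∀ (n : ℕ) (σ : List α), r n = Encodable.encode σ + 1 → (List.range σ.length).map x ≠ σ}

theorem names_cl {α : Type} [TopologicalSpace α] [Encodable α] {r : ℕ → ℕ}
    {A : TopologicalSpace.Closeds (ℕ → α)} :
    (closedRep α).names r A ↔ (A : Set (ℕ → α)) = cl r := by
  change (A : Set (ℕ → α))ᶜ = _ ↔ _
  rw [← compl_inj_iff, compl_compl]
  refine Eq.congr_right ?_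
  ext x
  simp only [cl, mem_compl_iff, mem_iUnion, mem_ofPred_eq, exists_prop, not_exists, not_and]
  exact ⟨fun h n σ hn => h σ ⟨n, hn⟩, fun h σ ⟨n, hn⟩ => h n σ hn⟩

theorem cl_stable {α : Type} [Encodable α] {r : ℕ → ℕ} {x : ℕ → α} (hx : x ∉ cl r) :
    ∃ m, ∀ r' x', Ag m r r' → Ag m x x' → x' ∉ cl r' := by
  simp only [cl, mem_ofPred_eq, not_forall, not_not] at hx
  obtain ⟨n, σ, h1, h2⟩ := hx
  refine ⟨max (n + 1) σ.length, fun r' x' h3 h4 h5 => h5 n σ (h3 n (by omega) ▸ h1) ?_⟩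
  exact ((range_map_eq_iff _ _ _).2 (h4.mono (le_max_right _ _))).symm.trans h2

theorem isClosed_cl {α : Type} [TopologicalSpace α] [DiscreteTopology α] [Encodable α]
    (r : ℕ → ℕ) : IsClosed (cl r : Set (ℕ → α)) := by
  rw [← isOpen_compl_iff, isOpen_iff_mem_nhds]
  intro x hx
  obtain ⟨m, hm⟩ := cl_stable hx
  have : (⋂ i ∈ Finset.range m, {x' : ℕ → α | x' i = x i}) ∈ nhds x := by
    refine (Filter.biInter_finset_mem _).2 fun i _ => ?_
    exact (continuous_apply i).continuousAt.preimage_mem_nhds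
      (t := {x i}) ((isOpen_discrete _).mem_nhds rfl)
  refine Filter.mem_of_superset this fun x' hx' => hm r x' (Ag.refl _ _) fun i hi => ?_
  simp only [Finset.mem_range, mem_iInter, mem_ofPred_eq] at hx'
  exact (hx' i hi).symm

theorem nm_listing_countable {r : ℕ → ℕ} (h : (nm listing r).Nonempty) :
    (cl r : Set (ℕ → Bool)).Countable := by
  obtain ⟨A, hA, L, hL, -⟩ := nm_nonempty.1 h
  exact names_cl.1 hA ▸ hL

theorem mem_nm_listing {r : ℕ → ℕ} {s : ℕ → Bool} (hc : (cl r : Set (ℕ → Bool)).Countable)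
    (hs : Lists (cl r) s) : (fun n => (s n).toNat) ∈ nm listing r := by
  refine ⟨⟨cl r, isClosed_cl r⟩, names_cl.2 rfl, fun i => (s (Nat.pair i 0), ent s i),
    ⟨hc, ?_⟩, fun i => ⟨rfl, fun j => rfl⟩⟩
  ext x
  constructor
  · exact fun hx => hs.2 x hx
  · rintro ⟨i, h1, rfl⟩
    exact hs.1 i h1

theorem mem_nm_uc {r : ℕ → ℕ} {x s : ℕ → ℕ} (h : cl r = {x}) : s ∈ nm uniqueChoice r ↔ s = x := by
  constructor
  · rintro ⟨A, hA, y, hy, rfl⟩
    have h1 := names_cl.1 hA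
    have h2 : _ = ({s} : Set (ℕ → ℕ)) := hy
    rw [h1, h] at h2
    exact (singleton_injective h2).symm
  · rintro rfl
    exact ⟨⟨cl r, isClosed_cl r⟩, names_cl.2 rfl, s, h, rfl⟩

theorem nm_comp {X Y Z : Rep} {f : Problem Y Z} {g : Problem X Y} {p : ℕ → ℕ}
    (h : (nm (comp f g) p).Nonempty) : (nm g p).Nonempty ∧
      ∀ s ∈ nm g p, (nm f s).Nonempty ∧ ∀ t ∈ nm f s, t ∈ nm (comp f g) p := by
  obtain ⟨x, hx, z, h1, y, h2, h3⟩ := nm_nonempty.1 h
  refine ⟨nm_nonempty.2 ⟨x, hx, y, h2⟩, ?_⟩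
  rintro s ⟨x', hx', y', hy', hs⟩
  obtain rfl := X.unique p x x' hx hx'
  refine ⟨nm_nonempty.2 ⟨y', hs, h1 y' hy'⟩, ?_⟩
  rintro t ⟨y'', h4, z', h5, h6⟩
  obtain rfl := Y.unique s y' y'' hs h4
  exact ⟨x, hx, z', ⟨h1, y', hy', h5⟩, h6⟩

open Classical in
/-- One plus the least zero of `b`, or `0` if there is none. -/
noncomputable def srch (b : ℕ → ℕ) : ℕ := if h : ∃ k, b k = 0 then Nat.find h + 1 else 0

theorem srch_eq_zero {b : ℕ → ℕ} : srch b = 0 ↔ ∀ k, b k ≠ 0 := by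
  unfold srch
  split_ifs with h
  · simpa using h
  · simpa using h

theorem srch_eq_succ {b : ℕ → ℕ} {k : ℕ} : srch b = k + 1 ↔ b k = 0 ∧ ∀ j < k, b j ≠ 0 := by
  classical
  unfold srch
  split_ifs with h
  · rw [add_left_inj, Nat.find_eq_iff]
  · simp only [false_iff, not_and]
    exact fun h' => absurd ⟨k, h'⟩ h

theorem srch_stable {b : ℕ → ℕ} {y : ℕ} (h : y ≠ srch b) :
    ∃ m, ∀ b', Ag m b b' → y ≠ srch b' := by
  rcases hb : srch b with _ | k
  · rcases y with _ | y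
    · exact absurd hb.symm h
    · refine ⟨y + 1, fun b' hb' h' => srch_eq_zero.1 hb y ?_⟩
      rw [hb' y (by omega)]
      exact (srch_eq_succ.1 h'.symm).1
  · refine ⟨k + 1, fun b' hb' h' => h (h'.trans ?_)⟩
    rw [hb, srch_eq_succ]
    obtain ⟨h1, h2⟩ := srch_eq_succ.1 hb
    exact ⟨hb' k (by omega) ▸ h1, fun j hj => hb' j (by omega) ▸ h2 j hj⟩

/-- The defining conditions of the Skolem data for the diagonal set. -/
def Sk (p g : ℕ → ℕ) : Prop :=
  (∀ i j : ℕ, g (2 * Nat.pair i j + 2) =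
    srch fun k => p (Encodable.encode (i, j, (List.range k).map p))) ∧
  (∀ i, g (2 * i + 1) = srch fun j => g (2 * Nat.pair i j + 2)) ∧
  g 0 = srch fun i => g (2 * i + 1)

theorem Sk.diag_iff {p g : ℕ → ℕ} (h : Sk p g) : g 0 = 0 ↔ p ∈ diag := by
  obtain ⟨h1, h2, h3⟩ := h
  rw [h3, srch_eq_zero]
  refine forall_congr' fun i => ?_
  rw [h2, Ne, srch_eq_zero]
  simp only [not_forall, not_not]
  refine exists_congr fun j => ?_
  rw [h1, srch_eq_zero]

theorem Sk.unique {p g g' : ℕ → ℕ} (h : Sk p g) (h' : Sk p g') : g = g' := by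
  have e1 : ∀ i j, g (2 * Nat.pair i j + 2) = g' (2 * Nat.pair i j + 2) :=
    fun i j => (h.1 i j).trans (h'.1 i j).symm
  have e2 : ∀ i, g (2 * i + 1) = g' (2 * i + 1) := fun i => by
    rw [h.2.1, h'.2.1]
    simp only [e1]
  have e3 : g 0 = g' 0 := by
    rw [h.2.2, h'.2.2]
    simp only [e2]
  funext n
  rcases n with _ | n
  · exact e3
  rcases Nat.even_or_odd' n with ⟨i, rfl | rfl⟩
  · exact e2 i
  · have := e1 i.unpair.1 i.unpair.2
    rwa [Nat.pair_unpair] at this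

theorem Sk.exists (p : ℕ → ℕ) : ∃ g, Sk p g := by
  let u : ℕ → ℕ → ℕ := fun i j => srch fun k => p (Encodable.encode (i, j, (List.range k).map p))
  let v : ℕ → ℕ := fun i => srch fun j => u i j
  let g : ℕ → ℕ := fun n => if n = 0 then srch v else if n % 2 = 1 then v (n / 2) else
    u (n / 2 - 1).unpair.1 (n / 2 - 1).unpair.2
  have e1 : ∀ i j, g (2 * Nat.pair i j + 2) = u i j := fun i j => by
    have h1 : (2 * Nat.pair i j + 2) / 2 - 1 = Nat.pair i j := by omega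
    have h2 : ¬ (2 * Nat.pair i j + 2) % 2 = 1 := by omega
    simp only [g, h1, if_neg h2, Nat.unpair_pair]
    simp
  have e2 : ∀ i, g (2 * i + 1) = v i := fun i => by
    have h1 : (2 * i + 1) / 2 = i := by omega
    have h2 : (2 * i + 1) % 2 = 1 := by omega
    simp only [g, h1, if_pos h2]
    simp
  refine ⟨g, e1, fun i => ?_, ?_⟩
  · simp only [e1, e2]
    rfl
  · simp only [e2]
    rfl

theorem ag_comp (φ : ℕ → ℕ) (m : ℕ) : ∃ M, ∀ g g' : ℕ → ℕ, Ag M g g' →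
    Ag m (fun j => g (φ j)) (fun j => g' (φ j)) :=
  ⟨(Finset.range m).sup φ + 1, fun _ _ h j hj =>
    h _ (Nat.lt_succ_of_le (Finset.le_sup (f := φ) (Finset.mem_range.2 hj)))⟩

theorem Sk.stable {p g : ℕ → ℕ} (h : ¬ Sk p g) :
    ∃ m, ∀ p' g', Ag m p p' → Ag m g g' → ¬ Sk p' g' := by
  simp only [Sk, not_and_or, not_forall] at h
  rcases h with ⟨i, j, h⟩ | ⟨i, h⟩ | h
  · obtain ⟨m, hm⟩ := srch_stable h
    obtain ⟨M, hM⟩ := ag_comp (fun k => Encodable.encode (i, j, (List.range k).map p)) m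
    refine ⟨max (max M m) (2 * Nat.pair i j + 3), fun p' g' h1 h2 h3 => hm _ ?_
      ((h2 _ (by omega)).trans (h3.1 i j))⟩
    intro k hk
    have : (List.range k).map p = (List.range k).map p' :=
      (range_map_eq_iff _ _ _).2 (h1.mono (by omega))
    simp only [← this]
    exact hM p p' (h1.mono (by omega)) k hk
  · obtain ⟨m, hm⟩ := srch_stable h
    obtain ⟨M, hM⟩ := ag_comp (fun j => 2 * Nat.pair i j + 2) m
    exact ⟨max M (2 * i + 2), fun p' g' _ h2 h3 => hm _ (hM g g' (h2.mono (by omega)))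
      ((h2 _ (by omega)).trans (h3.2.1 i))⟩
  · obtain ⟨m, hm⟩ := srch_stable h
    obtain ⟨M, hM⟩ := ag_comp (fun j => 2 * j + 1) m
    exact ⟨max M 1, fun p' g' _ h2 h3 => hm _ (hM g g' (h2.mono (by omega)))
      ((h2 _ (by omega)).trans h3.2.2)⟩

/-- The characteristic function of the diagonal set, as a name-level problem. -/
def chi (p : ℕ → ℕ) : Set (ℕ → ℕ) := {q | q 0 = 0 ↔ p ∈ diag}

theorem chi_nonempty (p : ℕ → ℕ) : (chi p).Nonempty := by
  obtain ⟨g, hg⟩ := Sk.exists p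
  exact ⟨g, hg.diag_iff⟩

theorem chi_le_uc : PW chi (nm uniqueChoice) := by
  classical
  let K : (ℕ → ℕ) → ℕ → ℕ := fun p n => if ∃ σ : List ℕ, n.unpair.2 = Encodable.encode σ ∧
    ∀ p' g', Ag n.unpair.1 p p' → (List.range σ.length).map g' = σ → ¬ Sk p' g'
    then n.unpair.2 + 1 else 0
  have hK : ∀ p g, Sk p g → cl (K p) = {g} := by
    intro p g hg
    ext x
    constructor
    · intro hx
      by_contra hne
      have : ¬ Sk p x := fun h => hne (h.unique hg)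
      obtain ⟨m, hm⟩ := Sk.stable this
      refine hx (Nat.pair m (Encodable.encode ((List.range m).map x))) ((List.range m).map x)
        ?_ (by simp)
      simp only [K, Nat.unpair_pair]
      rw [if_pos]
      refine ⟨_, rfl, fun p' g' h1 h2 => hm p' g' h1 ?_⟩
      simp only [List.length_map, List.length_range] at h2
      exact Ag.symm ((range_map_eq_iff _ _ _).1 h2)
    · rintro rfl n σ h1 h2
      simp only [K] at h1
      split_ifs at h1 with h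
      obtain ⟨τ, h3, h4⟩ := h
      have : σ = τ := Encodable.encode_injective (by omega)
      subst this
      exact h4 p x (Ag.refl _ _) h2 hg
  refine ⟨K, fun _ s => s, fun p _ => ?_, fun p _ n => ⟨n, fun p' _ h i hi => ?_⟩,
    fun p _ s _ n => ⟨n, fun _ _ _ _ _ h => h⟩⟩
  · obtain ⟨g, hg⟩ := Sk.exists p
    refine ⟨⟨g, (mem_nm_uc (hK p g hg)).2 rfl⟩, fun s hs => ?_⟩
    rw [(mem_nm_uc (hK p g hg)).1 hs]
    exact hg.diag_iff
  · have h1 : Ag i.unpair.1 p p' := h.mono ((Nat.unpair_left_le i).trans hi.le)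
    simp only [K]
    refine if_congr (exists_congr fun σ => and_congr_right fun _ => ?_) rfl rfl
    exact ⟨fun h2 p'' g' h3 => h2 p'' g' (h1.trans h3),
      fun h2 p'' g' h3 => h2 p'' g' (h1.symm.trans h3)⟩

theorem toNat_ag {m : ℕ} {s s' : ℕ → Bool} (h : Ag m s s') :
    Ag m (fun n => (s n).toNat) (fun n => (s' n).toNat) := fun i hi => by simp only [h i hi]

theorem not_pw {X Y Z : Rep} {f : Problem Y Z} {g : Problem X Y} (hf : PW (nm f) (nm listing))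
    (hg : PW (nm g) (nm listing)) (h : PW (nm uniqueChoice) (nm (comp f g))) : False := by
  obtain ⟨K0, H0, a1, a2, a3⟩ := chi_le_uc.trans h
  obtain ⟨K1, H1, b1, b2, b3⟩ := hg
  obtain ⟨K2, H2, c1, c2, c3⟩ := hf
  have e0 : ∀ p, (nm (comp f g) (K0 p)).Nonempty := fun p => (a1 p (chi_nonempty p)).1
  have e1 : ∀ p, (nm g (K0 p)).Nonempty := fun p => (nm_comp (e0 p)).1
  have hAc : ∀ p, (cl (K1 (K0 p)) : Set (ℕ → Bool)).Countable :=
    fun p => nm_listing_countable (b1 _ (e1 p)).1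
  have e2 : ∀ p s, Lists (cl (K1 (K0 p))) s → H1 (K0 p) (fun n => (s n).toNat) ∈ nm g (K0 p) :=
    fun p s hs => (b1 _ (e1 p)).2 _ (mem_nm_listing (hAc p) hs)
  have e3 : ∀ p s, Lists (cl (K1 (K0 p))) s → (nm f (H1 (K0 p) fun n => (s n).toNat)).Nonempty :=
    fun p s hs => ((nm_comp (e0 p)).2 _ (e2 p s hs)).1
  have hBc : ∀ p s, Lists (cl (K1 (K0 p))) s →
      (cl (K2 (H1 (K0 p) fun n => (s n).toNat)) : Set (ℕ → Bool)).Countable :=
    fun p s hs => nm_listing_countable (c1 _ (e3 p s hs)).1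
  have e4 : ∀ p s t, Lists (cl (K1 (K0 p))) s →
      Lists (cl (K2 (H1 (K0 p) fun n => (s n).toNat))) t →
      H2 (H1 (K0 p) fun n => (s n).toNat) (fun n => (t n).toNat) ∈ nm (comp f g) (K0 p) :=
    fun p s t hs ht => ((nm_comp (e0 p)).2 _ (e2 p s hs)).2 _
      ((c1 _ (e3 p s hs)).2 _ (mem_nm_listing (hBc p s hs) ht))
  have cY : ∀ p s, Lists (cl (K1 (K0 p))) s → ∀ n, ∃ m, ∀ p' s', Lists (cl (K1 (K0 p'))) s' →
      Ag m p p' → Ag m s s' →
      Ag n (H1 (K0 p) fun n => (s n).toNat) (H1 (K0 p') fun n => (s' n).toNat) := by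
    intro p s hs n
    obtain ⟨m1, hm1⟩ := b3 _ (e1 p) _ (mem_nm_listing (hAc p) hs) n
    obtain ⟨m2, hm2⟩ := a2 p (chi_nonempty p) m1
    exact ⟨max m1 m2, fun p' s' hs' h1 h2 => hm1 _ (e1 p') _ (mem_nm_listing (hAc p') hs')
      (hm2 p' (chi_nonempty p') (h1.mono (le_max_right _ _)))
      (toNat_ag (h2.mono (le_max_left _ _)))⟩
  obtain ⟨O, hO, hO'⟩ := sigma3 (A := fun p => cl (K1 (K0 p)))
    (B := fun p s => cl (K2 (H1 (K0 p) fun n => (s n).toNat))) (D := diag) hAc hBc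
    (fun p x hx => by
      obtain ⟨m1, hm1⟩ := cl_stable hx
      obtain ⟨m2, hm2⟩ := b2 _ (e1 p) m1
      obtain ⟨m3, hm3⟩ := a2 p (chi_nonempty p) m2
      exact ⟨max m1 m3, fun p' x' h1 h2 => hm1 _ _ (hm2 _ (e1 p')
        (hm3 p' (chi_nonempty p') (h1.mono (le_max_right _ _)))) (h2.mono (le_max_left _ _))⟩)
    (fun p s hs x hx => by
      obtain ⟨m1, hm1⟩ := cl_stable hx
      obtain ⟨m2, hm2⟩ := c2 _ (e3 p s hs) m1
      obtain ⟨m3, hm3⟩ := cY p s hs m2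
      exact ⟨max m1 m3, fun p' s' x' hs' h1 h2 h3 => hm1 _ _ (hm2 _ (e3 p' s' hs')
        (hm3 p' s' hs' (h1.mono (le_max_right _ _)) (h2.mono (le_max_right _ _))))
        (h3.mono (le_max_left _ _))⟩)
    (fun p s t hs ht hp => by
      obtain ⟨m1, hm1⟩ := a3 p (chi_nonempty p) _ (e4 p s t hs ht) 1
      obtain ⟨m2, hm2⟩ := c3 _ (e3 p s hs) _ (mem_nm_listing (hBc p s hs) ht) m1
      obtain ⟨m3, hm3⟩ := cY p s hs m2
      refine ⟨max m1 (max m2 m3), fun p' s' t' hs' ht' h1 h2 h3 => ?_⟩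
      have h4 := hm1 p' (chi_nonempty p') _ (e4 p' s' t' hs' ht') (h1.mono (by omega))
        (hm2 _ (e3 p' s' hs') _ (mem_nm_listing (hBc p' s' hs') ht')
          (hm3 p' s' hs' (h1.mono (by omega)) (h2.mono (by omega))) (toNat_ag (h3.mono (by omega))))
        0 Nat.one_pos
      have h5 := (a1 p (chi_nonempty p)).2 _ (e4 p s t hs ht)
      have h6 := (a1 p' (chi_nonempty p')).2 _ (e4 p' s' t' hs' ht')
      exact h6.1 (h4 ▸ h5.2 hp))
  exact diag_not_sigma3 O hO hO'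

theorem main {X Y : Rep} (h : Problem X Y)
    (hh : ∃ (U V W : Rep) (f₀ : Problem V W) (g₀ : Problem U V),
      WLe f₀ listing ∧ WLe g₀ listing ∧ WLe h (comp f₀ g₀)) : ¬ WLe uniqueChoice h := by
  obtain ⟨U, V, W, f, g, h1, h2, h3⟩ := hh
  exact fun h4 => not_pw h1.pw h2.pw (h4.pw.trans h3.pw)

end Pool.Agent.P.MP_b67dab_lc
end
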